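import Pool.Agent.Run7.h789.FV.Hf
import Pool.Agent.NH29.GN.Hi2

/-!
# The height inequality over function fields, affine version: local lemmas
-/

set_option autoImplicit false

open FF Pool.Agent.W603.LV Pool.Agent.W603.PV MvPolynomial Filter

namespace Pool.Agent.Run7.h789.FV

open Pool.Agent.NH29.GN (Idx Mon fv val quo)

section mord

variable {k L : Type} [Field k] [Field L] [Algebra k L]

/-- the least order of the nonzero members of a family -/
noncomputable def mord {ι : Type} (P : Place k L) (x : ι → L) : ℤ :=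
  ⨅ j : {j // x j ≠ 0}, P.ord (x j)

variable {ι : Type} [Finite ι]

theorem mord_le (P : Place k L) {x : ι → L} {j : ι} (hj : x j ≠ 0) : mord P x ≤ P.ord (x j) := by
  unfold mord
  exact ciInf_le (Set.finite_range _).bddBelow (⟨j, hj⟩ : {j // x j ≠ 0})

theorem exists_mord (P : Place k L) {x : ι → L} (hx : ∃ j, x j ≠ 0) :
    ∃ j, x j ≠ 0 ∧ P.ord (x j) = mord P x := by
  obtain ⟨j0, hj0⟩ := hx
  have : Nonempty {j // x j ≠ 0} := ⟨⟨j0, hj0⟩⟩
  obtain ⟨j, hj⟩ := exists_eq_ciInf_of_finite (f := fun j : {j // x j ≠ 0} => P.ord (x j))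
  exact ⟨j, j.2, hj⟩

theorem ge_mord (P : Place k L) (x : ι → L) (j : ι) : Ge P (mord P x) (x j) := by
  by_cases h : x j = 0
  · exact Or.inl h
  · exact Or.inr (mord_le P h)

theorem mord_eq_zero (P : Place k L) {x : ι → L} (hx : ∃ j, x j ≠ 0)
    (h : ∀ j, x j ≠ 0 → P.ord (x j) = 0) : mord P x = 0 := by
  obtain ⟨j, hj, h1⟩ := exists_mord P hx
  rw [← h1, h j hj]

theorem ge_val {M e : ℕ} (P : Place k L) (x : Fin (M + 1) → L) (β : Mon M e) :
    Ge P (e * mord P x) (val x β.1) := by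
  unfold val
  have h1 := Ge.prod (P := P) Finset.univ (fun a => x a ^ β.1 a) (fun a => β.1 a * mord P x)
    (fun a _ => (ge_mord P x a).pow (β.1 a))
  refine h1.mono (le_of_eq ?_)
  rw [← Finset.sum_mul]
  congr 1
  have h2 : β.1.degree = e := β.2
  rw [Finsupp.degree_eq_sum] at h2
  exact_mod_cast h2.symm

theorem ge_fv {M q : ℕ} {d : Fin q → ℕ} (P : Place k L) (t : Idx M d → L) (x : Fin (M + 1) → L)
    (b : Fin q) : Ge P (mord P (fun β => t ⟨b, β⟩) + d b * mord P x) (fv t x b) := by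
  unfold fv
  refine Ge.sum _ _ fun β _ => ?_
  rw [Algebra.algebraMap_self, RingHom.id_apply]
  exact (ge_mord P (fun β => t ⟨b, β⟩) β).mul (ge_val P x β)

/-- the places at which `x` meets one of the hypersurfaces `F b = 0`, `b ∉ C` -/
def meets (k : Type) {L : Type} [Field k] [Field L] [Algebra k L] {M q : ℕ} {d : Fin q → ℕ}
    (C : Finset (Fin q)) (t : Idx M d → L) (x : Fin (M + 1) → L) : Set (Place k L) :=
  {P | ∃ b, b ∉ C ∧ mord P (fun β => t ⟨b, β⟩) + d b * mord P x < P.ord (fv t x b)}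

theorem t_ne {M q : ℕ} {d : Fin q → ℕ} {t : Idx M d → L} {x : Fin (M + 1) → L} {b : Fin q}
    (h : fv t x b ≠ 0) : ∃ β, t ⟨b, β⟩ ≠ 0 := by
  by_contra hcon
  push Not at hcon
  apply h
  unfold fv
  exact Finset.sum_eq_zero fun β _ => by rw [hcon β, map_zero, zero_mul]

theorem ord_fv {M q : ℕ} {d : Fin q → ℕ} (P : Place k L) {C : Finset (Fin q)} {t : Idx M d → L}
    {x : Fin (M + 1) → L} (hP : P ∉ meets k C t x) {b : Fin q} (hb : b ∉ C) (h0 : fv t x b ≠ 0) :
    P.ord (fv t x b) = mord P (fun β => t ⟨b, β⟩) + d b * mord P x := by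
  have h1 : ¬ (mord P (fun β => t ⟨b, β⟩) + d b * mord P x < P.ord (fv t x b)) :=
    fun h => hP ⟨b, hb, h⟩
  rcases ge_fv P t x b with h2 | h2
  · exact absurd h2 h0
  · omega

end mord

section

variable {k L : Type} [Field k] [Field L] [Algebra k L] [CharZero k] [IsFF k L]

theorem finite_meets {M q : ℕ} {d : Fin q → ℕ} {C : Finset (Fin q)} {t : Idx M d → L}
    {x : Fin (M + 1) → L} (hx : x ≠ 0) (hoff : ∀ b, b ∉ C → fv t x b ≠ 0) :
    (meets k C t x).Finite := by
  classical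
  obtain ⟨T1, hT1⟩ := exists_supp (k := k) Finset.univ x
  obtain ⟨T2, hT2⟩ := exists_supp (k := k) Finset.univ t
  obtain ⟨T3, hT3⟩ := exists_supp (k := k) Finset.univ (fun b => fv t x b)
  refine (T1 ∪ T2 ∪ T3).finite_toSet.subset ?_
  rintro P ⟨b, hb, hlt⟩
  by_contra hcon
  rw [Finset.mem_coe, Finset.mem_union, Finset.mem_union, not_or, not_or] at hcon
  have h1 : ∀ a, P.ord (x a) = 0 := fun a => by
    by_contra h
    exact hcon.1.1 (hT1 a (Finset.mem_univ _) P h)
  have h2 : ∀ a, P.ord (t a) = 0 := fun a => by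
    by_contra h
    exact hcon.1.2 (hT2 a (Finset.mem_univ _) P h)
  have h3 : P.ord (fv t x b) = 0 := by
    by_contra h
    exact hcon.2 (hT3 b (Finset.mem_univ _) P h)
  have h4 : mord P x = 0 := mord_eq_zero P (Function.ne_iff.1 hx) fun a _ => h1 a
  have h5 : mord P (fun β => t ⟨b, β⟩) = 0 := mord_eq_zero P (t_ne (hoff b hb)) fun a _ => h2 _
  rw [h3, h4, h5] at hlt
  simp at hlt

variable [IsAlgClosed k]

/-- the number of zeros and poles of finitely many functions -/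
theorem exists_zp {ι : Type} (s : Finset ι) (f : ι → L) :
    ∃ T : Finset (Place k L), (∀ i ∈ s, ∀ P : Place k L, P.ord (f i) ≠ 0 → P ∈ T) ∧
      (T.card : ℤ) ≤ 2 * ∑ i ∈ s, hgt k (f i) := by
  classical
  obtain ⟨T, hT⟩ := exists_supp (k := k) s f
  set T1 : Finset (Place k L) := T.filter fun P => ∃ i ∈ s, P.ord (f i) < 0 with hT1
  set T2 : Finset (Place k L) := T.filter fun P => ∃ i ∈ s, P.ord (f i)⁻¹ < 0 with hT2
  have h1 := card_poles (k := k) s f T1 (fun P hP => (Finset.mem_filter.1 hP).2)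
  have h2 := card_poles (k := k) s (fun i => (f i)⁻¹) T2 (fun P hP => (Finset.mem_filter.1 hP).2)
  have h2' : ∑ i ∈ s, hgt k ((f i)⁻¹) = ∑ i ∈ s, hgt k (f i) :=
    Finset.sum_congr rfl fun i _ => hgt_inv _
  rw [h2'] at h2
  refine ⟨T1 ∪ T2, fun i hi P hP => ?_, ?_⟩
  · rw [Finset.mem_union]
    rcases lt_or_gt_of_ne hP with h | h
    · exact Or.inl (Finset.mem_filter.2 ⟨hT i hi P hP, i, hi, h⟩)
    · refine Or.inr (Finset.mem_filter.2 ⟨hT i hi P hP, i, hi, ?_⟩)
      rw [P.ord_inv]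
      omega
  · have h3 := Finset.card_union_le T1 T2
    have h4 : ((T1 ∪ T2).card : ℤ) ≤ T1.card + T2.card := by exact_mod_cast h3
    omega

/-- constants for the unit equation -/
noncomputable def kb (s : ℕ) : ℤ := s * (((s - 1) ^ 2 + 1 : ℕ) * tri s)

theorem kb_nonneg (s : ℕ) : 0 ≤ kb s :=
  mul_nonneg (Int.natCast_nonneg _) (mul_nonneg (Int.natCast_nonneg _) (tri_nonneg s))

/-- a quotient of small height in a generalised unit equation -/
theorem exists_pair {J : Type} [Fintype J] [Nonempty J] (S : Finset (Place k L)) (g : J → L)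
    (hg0 : ∀ j, g j ≠ 0) (hrel : ∑ j, g j = 0)
    (hS : ∀ P ∉ S, ∀ i j, P.ord (g i) = P.ord (g j)) :
    ∃ i j, i ≠ j ∧ hgt k (g i / g j) ≤ kb (Fintype.card J) * max (canDeg k L + S.card) 0 := by
  classical
  obtain ⟨R, hR, h1, h2⟩ := blocks (k := k) S (N := (Fintype.card J - 1) ^ 2 + 1)
    (s := Fintype.card J) le_rfl (Nat.succ_pos _) (Nat.le_succ _) g hg0 hrel (by
      intro P hP i j
      rw [hS P hP i j, sub_self]
      exact dvd_zero _)
  obtain ⟨j0⟩ := ‹Nonempty J›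
  have h3 := h2 j0 (Finset.univ.filter fun j => R j0 j) (by simp)
  have h4 : ∃ j, R j0 j ∧ j ≠ j0 := by
    by_contra hcon
    push Not at hcon
    have h5 : (Finset.univ.filter fun j => R j0 j) = {j0} := by
      ext j
      rw [Finset.mem_filter, Finset.mem_singleton]
      exact ⟨fun h => hcon j h.2, fun h => ⟨Finset.mem_univ _, h ▸ hR.refl j0⟩⟩
    rw [h5, Finset.sum_singleton] at h3
    exact hg0 j0 h3
  obtain ⟨j, hj, hne⟩ := h4
  refine ⟨j0, j, hne.symm, (h1 j0 j hj).trans (le_of_eq ?_)⟩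
  unfold kb
  ring

end

end Pool.Agent.Run7.h789.FV
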