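import Pool.Agent.Run7.h789.FV.One

/-!
# The height inequality over function fields, affine version, one stratum
-/

set_option autoImplicit false

open FF Pool.Agent.W603.LV Pool.Agent.W603.PV MvPolynomial Filter

namespace Pool.Agent.Run7.h789.FV

open Pool.Agent.NH29.GN (Idx Mon fv val quo NoZero Num2 HFam Sm stb2 sml ld)
open Pool.Agent.NH29.GN.Hi (Pt2 stcP sm_mul sm_inv)

/-- a point which violates the inequality -/
structure Sit {k₀ : Type} [Field k₀] (c₀ : k₀ → ℕ) {M q : ℕ}
    (V : Set (MvPolynomial (Fin (M + 1)) k₀)) {d : Fin q → ℕ} (C : Finset (Fin q))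
    (Q : MvPolynomial (Idx M d) k₀) (A : ℕ) : Type 1 where
  /-- constants -/
  k : Type
  /-- the function field -/
  L : Type
  [fk : Field k]
  [fL : Field L]
  [ac : IsAlgClosed k]
  [cz : CharZero k]
  [alg : Algebra k L]
  [alg0 : Algebra k₀ L]
  [ff : IsFF k L]
  /-- weight -/
  w : ℕ
  hw : ∀ a : k₀, hgt k (algebraMap k₀ L a) ≤ c₀ a * w
  /-- coefficients -/
  t : Idx M d → L
  ht : aeval t Q ≠ 0
  /-- the point -/
  x : Fin (M + 1) → L
  hx : Pt2 V C t x
  lt : A * rhs k w C t x < pht k x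

attribute [instance] Sit.fk Sit.fL Sit.ac Sit.cz Sit.alg Sit.alg0 Sit.ff

theorem aff_one {k₀ : Type} [Field k₀] [CharZero k₀] (c₀ : k₀ → ℕ) {M n q : ℕ}
    {V : Set (MvPolynomial (Fin (M + 1)) k₀)} (hV : ∀ H ∈ V, ∃ e, H.IsHomogeneous e)
    {ℓ : Fin (n + 1) → MvPolynomial (Fin (M + 1)) k₀} (hℓ : ∀ j, (ℓ j).IsHomogeneous 1)
    (hN : NoZero V ℓ) (hq : n + 1 ≤ q) {d : Fin q → ℕ} (hd : ∀ i, 1 ≤ d i)
    (C : Finset (Fin q)) (hNum : Num2 n d C) :
    ∃ Φ : MvPolynomial (Idx M d) k₀, Φ ≠ 0 ∧ ∃ A : ℕ, IsEmpty (Sit c₀ V C Φ A) := by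
  classical
  by_contra hcon
  push Not at hcon
  obtain ⟨K', L', _, _, _, _, _, t', x', ht', hx'⟩ := stb2 k₀ M q V d C (by
    intro Q hQ
    have D : ∀ A : ℕ, Sit c₀ V C Q A := fun A => (hcon Q hQ A).some
    obtain ⟨𝒰, h𝒰⟩ : ∃ 𝒰 : Ultrafilter ℕ, 𝒰 = hyperfilter ℕ := ⟨_, rfl⟩
    have hcof : ∀ R : ℕ, ∀ᶠ s : ℕ in (𝒰 : Filter ℕ), R ≤ s := by
      intro R
      have h1 : ∀ᶠ s : ℕ in (cofinite : Filter ℕ), R ≤ s := by
        rw [Nat.cofinite_eq_atTop]
        exact eventually_ge_atTop R
      rw [h𝒰]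
      exact hyperfilter_le_cofinite h1
    obtain ⟨H, hHe⟩ : ∃ H : ℕ → ℝ, ∀ s, H s = (pht (D s).k (D s).x : ℝ) := ⟨_, fun _ => rfl⟩
    obtain ⟨R, hRe⟩ : ∃ R : ℕ → ℝ, ∀ s, R s = (rhs (D s).k (D s).w C (D s).t (D s).x : ℝ) :=
      ⟨_, fun _ => rfl⟩
    have hR0 : ∀ s, 0 ≤ R s := fun s => by
      have := rhs_nonneg (k := (D s).k) (D s).w C (D s).t (D s).x
      rw [hRe]
      exact_mod_cast this
    have hlt : ∀ s : ℕ, (s : ℝ) * R s < H s := fun s => by
      have := (D s).lt
      have h2 : (((s : ℤ) * rhs (D s).k (D s).w C (D s).t (D s).x : ℤ) : ℝ) <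
          (pht (D s).k (D s).x : ℝ) := by exact_mod_cast this
      push_cast at h2
      rw [hRe, hHe]
      exact h2
    have hH0 : ∀ s, 0 < H s := fun s =>
      lt_of_le_of_lt (mul_nonneg (Nat.cast_nonneg s) (hR0 s)) (hlt s)
    have hRs : SmR 𝒰 H R := by
      intro N
      filter_upwards [hcof N] with s hs
      exact (mul_le_mul_of_nonneg_right (by exact_mod_cast hs) (hR0 s)).trans (hlt s).le
    let T : HFam 𝒰 (fun s : ℕ => (D s).L) :=
      { h := fun s a => (hgt (D s).k a : ℝ)
        H := H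
        c := fun _ => 0
        nonneg := fun s a => by
          have := hgt_nonneg (k := (D s).k) a
          exact_mod_cast this
        zero := fun s => by rw [hgt_zero]; simp
        one := fun s => by rw [hgt_one]; simp
        neg := fun s a => by rw [hgt_neg]; simp
        inv := fun s a => by rw [hgt_inv]; simp
        add := fun s a b => by
          have := hgt_add (k := (D s).k) a b
          rw [add_zero]
          exact_mod_cast this
        mul := fun s a b => by
          have := hgt_mul' (k := (D s).k) a b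
          rw [add_zero]
          exact_mod_cast this
        root := fun n s g a h => by
          have := hgt_root (k := (D s).k) n g a h
          rw [add_zero]
          exact_mod_cast this
        small := fun n N => by
          filter_upwards with s
          rw [mul_zero]
          exact (hH0 s).le }
    have hle : ∀ s, ∀ a : (D s).L, (hgt (D s).k a : ℤ) ≤ rhs (D s).k (D s).w C (D s).t (D s).x →
        (hgt (D s).k a : ℝ) ≤ R s := fun s a h => by
      rw [hRe]
      exact_mod_cast h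
    have htS : ∀ i, Sm T fun s => (D s).t i := by
      intro i
      refine hRs.mono (Eventually.of_forall fun s => hle s _ ?_)
      have h2 := Finset.single_le_sum (f := fun i => hgt (D s).k ((D s).t i))
        (fun i _ => hgt_nonneg _) (Finset.mem_univ i)
      have h3 : hgt (D s).k ((D s).t i) ≤ ∑ i, hgt (D s).k ((D s).t i) := h2
      have h4 : 0 ≤ max (canDeg (D s).k (D s).L + (meets (D s).k C (D s).t (D s).x).ncard) 0 :=
        le_max_right _ _
      have h5 : (0 : ℤ) ≤ (D s).w := Int.natCast_nonneg _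
      unfold rhs
      linarith
    have hkS : ∀ a : k₀, Sm T fun s => algebraMap k₀ (D s).L a := by
      intro a
      refine (hRs.const_mul hR0 (c₀ a : ℝ)).mono (Eventually.of_forall fun s => ?_)
      have h1 := (D s).hw a
      have h2 : ((D s).w : ℤ) ≤ rhs (D s).k (D s).w C (D s).t (D s).x := by
        have h4 : 0 ≤ max (canDeg (D s).k (D s).L + (meets (D s).k C (D s).t (D s).x).ncard) 0 :=
          le_max_right _ _
        have h5 : 0 ≤ ∑ i, hgt (D s).k ((D s).t i) := Finset.sum_nonneg fun _ _ => hgt_nonneg _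
        unfold rhs
        linarith
      have h3 : hgt (D s).k (algebraMap k₀ (D s).L a) ≤
          c₀ a * rhs (D s).k (D s).w C (D s).t (D s).x :=
        h1.trans (mul_le_mul_of_nonneg_left h2 (Int.natCast_nonneg _))
      change (hgt (D s).k (algebraMap k₀ (D s).L a) : ℝ) ≤ (c₀ a : ℝ) * R s
      rw [hRe]
      have h4 : ((hgt (D s).k (algebraMap k₀ (D s).L a) : ℤ) : ℝ) ≤
        ((c₀ a * rhs (D s).k (D s).w C (D s).t (D s).x : ℤ) : ℝ) := by exact_mod_cast h3
      push_cast at h4
      exact h4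
    obtain ⟨K', L', i1, i2, i3, i4, i5, t', x', h1, h2⟩ := Pool.Agent.NH29.GN.abs sml ld k₀ ℕ 𝒰
      (fun s => (D s).L) T M q V d C (fun s => (D s).t) (fun s => (D s).x) Q hkS htS
      (fun s => (D s).ht) (fun s H hH => (D s).hx.onV H hH)
      (fun s c hc => (D s).hx.onC c hc) (fun s b hb => (D s).hx.off b hb) (fun s => (D s).hx.ne)
      (by
        intro a₀ ha₀
        by_contra hall
        push Not at hall
        have h1 : ∀ᶠ s in (𝒰 : Filter ℕ), ∀ a, ((2 * (M + 1) : ℕ) : ℝ) *
            (hgt (D s).k ((D s).x a / (D s).x a₀) : ℝ) ≤ H s :=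
          eventually_all.2 fun a => hall a (2 * (M + 1))
        obtain ⟨s, hs1, hs2⟩ := (h1.and ha₀).exists
        have h2 : pht (D s).k (D s).x ≤ ∑ a, hgt (D s).k ((D s).x a / (D s).x a₀) :=
          pht_le (D s).x hs2
        have h2' : H s ≤ ∑ a, (hgt (D s).k ((D s).x a / (D s).x a₀) : ℝ) := by
          rw [hHe]
          exact_mod_cast h2
        have h3 : ((2 * (M + 1) : ℕ) : ℝ) * ∑ a, (hgt (D s).k ((D s).x a / (D s).x a₀) : ℝ) ≤
            (M + 1) * H s := by
          rw [Finset.mul_sum]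
          refine (Finset.sum_le_sum fun a _ => hs1 a).trans (le_of_eq ?_)
          rw [Finset.sum_const, Finset.card_univ, Fintype.card_fin, nsmul_eq_mul]
          push_cast
          ring
        have h5 : (0 : ℝ) < (M : ℝ) + 1 := by positivity
        have h6 := mul_le_mul_of_nonneg_left h2'
          (by positivity : (0 : ℝ) ≤ ((2 * (M + 1) : ℕ) : ℝ))
        push_cast at h3 h6
        nlinarith [mul_pos h5 (hH0 s)])
      (by
        intro b₀ hb₀ S' hS' c' hcS hc0' hrel
        have hneS : Nonempty {m // m ∈ S'} := hS'.to_subtype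
        have hc0 : ∀ᶠ s in (𝒰 : Filter ℕ), ∀ m : {m // m ∈ S'}, c' m.1 s ≠ 0 :=
          eventually_all.2 fun m => hc0' m.1 m.2
        have hev : ∀ᶠ s in (𝒰 : Filter ℕ), ∃ p : {m // m ∈ S'} × {m // m ∈ S'}, p.1 ≠ p.2 ∧
            hgt (D s).k ((∏ b, quo C (D s).t (D s).x b₀ b ^ p.1.1 b) /
              ∏ b, quo C (D s).t (D s).x b₀ b ^ p.2.1 b) ≤
            kb (Fintype.card {m // m ∈ S'}) *
              (max (canDeg (D s).k (D s).L + (meets (D s).k C (D s).t (D s).x).ncard) 0 +
              2 * ∑ i, hgt (D s).k ((D s).t i) + 2 * ∑ j : {m // m ∈ S'}, hgt (D s).k (c' j.1 s)) +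
              2 * ∑ j : {m // m ∈ S'}, hgt (D s).k (c' j.1 s) := by
          filter_upwards [hc0, hrel] with s hs1 hs2
          obtain ⟨i, j, hij, h⟩ := rel_step (k := (D s).k) (D s).hx.ne (D s).hx.off hb₀
            (J := {m // m ∈ S'}) (fun m => m.1) (fun m => c' m.1 s) hs1 (by
              rw [← hs2, ← Finset.sum_coe_sort S'])
          exact ⟨(i, j), hij, h⟩
        obtain ⟨⟨i, j⟩, hp⟩ := ev_exists hev
        refine ⟨i.1, i.2, j.1, j.2, fun h => ?_, ?_⟩
        · obtain ⟨s, hs⟩ := hp.exists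
          exact hs.1 (Subtype.ext h)
        · have hcsum : SmR 𝒰 H fun s => ∑ j : {m // m ∈ S'}, (hgt (D s).k (c' j.1 s) : ℝ) :=
            SmR.sum (Eventually.of_forall fun s => (hH0 s).le) Finset.univ
              fun m _ => hcS m.1 m.2
          have hcsum0 : ∀ s, 0 ≤ ∑ j : {m // m ∈ S'}, (hgt (D s).k (c' j.1 s) : ℝ) := fun s =>
            Finset.sum_nonneg fun j _ => by
              have := hgt_nonneg (k := (D s).k) (c' j.1 s)
              exact_mod_cast this
          set κ : ℤ := kb (Fintype.card {m // m ∈ S'}) with hκ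
          have hκ0 : 0 ≤ κ := kb_nonneg _
          have hκ0' : (0 : ℝ) ≤ κ := by exact_mod_cast hκ0
          have hb : SmR 𝒰 H fun s => (2 * κ : ℝ) * R s +
              (2 * κ + 2) * ∑ j : {m // m ∈ S'}, (hgt (D s).k (c' j.1 s) : ℝ) :=
            (hRs.const_mul hR0 _).add (hcsum.const_mul hcsum0 _)
          refine hb.mono ?_
          filter_upwards [hp] with s hs
          have h7 := hs.2
          have h8 : (0 : ℤ) ≤ max (canDeg (D s).k (D s).L +
              (meets (D s).k C (D s).t (D s).x).ncard) 0 := le_max_right _ _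
          have h9 : (0 : ℤ) ≤ (D s).w := Int.natCast_nonneg _
          have h10 : max (canDeg (D s).k (D s).L + (meets (D s).k C (D s).t (D s).x).ncard) 0 +
              2 * ∑ i, hgt (D s).k ((D s).t i) ≤
              2 * rhs (D s).k (D s).w C (D s).t (D s).x := by
            unfold rhs
            linarith
          have h11 : hgt (D s).k ((∏ b, quo C (D s).t (D s).x b₀ b ^ i.1 b) /
              ∏ b, quo C (D s).t (D s).x b₀ b ^ j.1 b) ≤
              2 * κ * rhs (D s).k (D s).w C (D s).t (D s).x +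
                (2 * κ + 2) * ∑ j : {m // m ∈ S'}, hgt (D s).k (c' j.1 s) := by
            refine h7.trans ?_
            have h12 := mul_le_mul_of_nonneg_left h10 hκ0
            nlinarith
          have h13 : ((hgt (D s).k ((∏ b, quo C (D s).t (D s).x b₀ b ^ i.1 b) /
              ∏ b, quo C (D s).t (D s).x b₀ b ^ j.1 b) : ℤ) : ℝ) ≤
              ((2 * κ * rhs (D s).k (D s).w C (D s).t (D s).x +
                (2 * κ + 2) * ∑ j : {m // m ∈ S'}, hgt (D s).k (c' j.1 s) : ℤ) : ℝ) := by
            exact_mod_cast h11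
          push_cast at h13
          rw [hRe]
          exact h13)
    exact ⟨K', L', i1, i2, i3, i4, i5, t', x', h1, h2⟩)
  exact stcP k₀ K' L' M n q V hV ℓ hℓ hN hq d hd C hNum t' ht' x' hx'

end Pool.Agent.Run7.h789.FV
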