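import Pool.Agent.NH29.GN.Hi3

/-!
# General hypersurfaces have no common zero, over all extension fields
-/

set_option autoImplicit false

open MvPolynomial Filter

namespace Pool.Agent.Run7.h789.FV

open Pool.Agent.NH29.GN Pool.Agent.NH29.GN.Stb2

/-- general forms `F 0, …, F (q - 1)`, `q ≥ n + 1`, have no common zero on `V` -/
theorem ncz_open {k : Type} [Field k] [CharZero k] {M n q : ℕ}
    {V : Set (MvPolynomial (Fin (M + 1)) k)} (hV : ∀ H ∈ V, ∃ e, H.IsHomogeneous e)
    {ℓ : Fin (n + 1) → MvPolynomial (Fin (M + 1)) k} (hℓ : ∀ j, (ℓ j).IsHomogeneous 1)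
    (hN : NoZero V ℓ) (hq : n + 1 ≤ q) {d : Fin q → ℕ} (hd : ∀ i, 1 ≤ d i) :
    ∃ Φ : MvPolynomial (Idx M d) k, Φ ≠ 0 ∧ ∀ (L : Type) [Field L] [Algebra k L]
      (t : Idx M d → L), aeval t Φ ≠ 0 → ∀ x : Fin (M + 1) → L, (∀ H ∈ V, aeval x H = 0) →
        (∀ i, fv t x i = 0) → x = 0 := by
  classical
  by_contra hcon
  push Not at hcon
  have hyp : ∀ Q : MvPolynomial (Idx M d) k, Q ≠ 0 → ∃ (K : Type) (_ : Field K) (_ : Algebra k K)
      (_ : IsAlgClosed K) (t : Idx M d → K) (x : Fin (M + 1) → K), aeval t Q ≠ 0 ∧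
      (∀ H ∈ V, aeval x H = 0) ∧ (∀ i, fv t x i = 0) ∧ x ≠ 0 := by
    intro Q hQ
    obtain ⟨L, _, _, t, ht, x, hxV, hx0, hx⟩ := hcon Q hQ
    refine ⟨AlgebraicClosure L, inferInstance, inferInstance, inferInstance,
      fun s => algebraMap L _ (t s), fun a => algebraMap L _ (x a), ?_, ?_, ?_, ?_⟩
    · change aeval (algebraMap L (AlgebraicClosure L) ∘ t) Q ≠ 0
      rw [aeval_algebraMap_apply]
      intro h
      exact ht ((map_eq_zero _).1 h)
    · intro H hH
      change aeval (algebraMap L (AlgebraicClosure L) ∘ x) H = 0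
      rw [aeval_algebraMap_apply, hxV H hH, map_zero]
    · intro i
      have h1 : fv (K := AlgebraicClosure L) (L := AlgebraicClosure L)
          (fun s => algebraMap L (AlgebraicClosure L) (t s))
          (fun a => algebraMap L (AlgebraicClosure L) (x a)) i =
          algebraMap L (AlgebraicClosure L) (fv t x i) := by
        unfold fv val
        rw [map_sum]
        refine Finset.sum_congr rfl fun β _ => ?_
        rw [map_mul, map_prod]
        congr 1
        exact Finset.prod_congr rfl fun j _ => (map_pow _ _ _).symm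
      rw [h1, hx0 i, map_zero]
    · intro h
      apply hx
      funext a
      have := congrFun h a
      exact (map_eq_zero _).1 this
  -- the index set
  let I : Type := {Q : MvPolynomial (Idx M d) k // Q ≠ 0}
  let A : I → Set I := fun P => {Q : I | P.1 ∣ Q.1}
  have : Nonempty I := ⟨⟨1, one_ne_zero⟩⟩
  have hdir : Directed (· ≥ ·) (fun P : I => (𝓟 (A P) : Filter I)) := by
    intro P P'
    refine ⟨⟨P.1 * P'.1, mul_ne_zero P.2 P'.2⟩, ?_, ?_⟩
    · show 𝓟 _ ≤ 𝓟 _
      rw [principal_mono]
      intro Q hQ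
      exact (Dvd.intro _ rfl).trans hQ
    · show 𝓟 _ ≤ 𝓟 _
      rw [principal_mono]
      intro Q hQ
      exact (Dvd.intro_left _ rfl).trans hQ
  have : NeBot (⨅ P : I, (𝓟 (A P) : Filter I)) := by
    apply iInf_neBot_of_directed' hdir
    intro P
    rw [principal_neBot_iff]
    exact ⟨P, dvd_refl _⟩
  let U : Ultrafilter I := Ultrafilter.of (⨅ P : I, (𝓟 (A P) : Filter I))
  have hU : ∀ P : I, ∀ᶠ Q in (U : Filter I), P.1 ∣ Q.1 := by
    intro P
    have h1 : A P ∈ (⨅ P : I, (𝓟 (A P) : Filter I)) :=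
      mem_iInf_of_mem P (mem_principal_self _)
    exact (Ultrafilter.of_le (⨅ P : I, (𝓟 (A P) : Filter I))) h1
  choose K iK iA iC t x ht hxV hx0 hx using fun Q : I => hyp Q.1 Q.2
  let _ : Algebra k (UPr U K) :=
    ((pr U K).comp (algebraMap k (∀ i, K i))).toAlgebra
  have hal1 : ∀ a : k, algebraMap k (UPr U K) a =
      pr U K (fun i => algebraMap k (K i) a) := fun _ => rfl
  have hcl : IsAlgClosed (UPr U K) := closed U K
  set t' : Idx M d → UPr U K := fun j => pr U K (fun Q => t Q j) with ht'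
  set x' : Fin (M + 1) → UPr U K := fun j => pr U K (fun Q => x Q j) with hx'
  have hfv : ∀ i, fv (K := UPr U K) (L := UPr U K) t' x' i =
      pr U K (fun Q => fv (t Q) (x Q) i) := by
    intro i
    unfold fv
    rw [pr_sum]
    apply Finset.sum_congr rfl
    intro β _
    rw [pr_mul]
    congr 1
    unfold val
    rw [pr_prod]
    apply Finset.prod_congr rfl
    intro j _
    rw [pr_pow]
  have hae : ∀ {σ : Type} (y : ∀ Q : I, σ → K Q) (P : MvPolynomial σ k),
      aeval (fun j => pr U K fun Q => y Q j) P = pr U K (fun Q => aeval (y Q) P) := by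
    intro σ y P
    induction P using MvPolynomial.induction_on with
    | C a =>
      simp only [algHom_C]
      exact hal1 a
    | add p p' h h' =>
      simp only [map_add]
      rw [h, h', ← map_add]
      rfl
    | mul_X p n h =>
      simp only [map_mul, aeval_X]
      rw [h, pr_mul]
  have hind : AlgebraicIndependent k t' := by
    rw [algebraicIndependent_iff]
    intro P hP
    by_contra hne
    rw [ht', hae t P, pr_eq_zero] at hP
    obtain ⟨Q, hQ1, hQ2⟩ := (hP.and (hU ⟨P, hne⟩)).exists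
    obtain ⟨R, hR⟩ := hQ2
    apply ht Q
    have : Q.1 = P * R := hR
    rw [this, map_mul, hQ1, zero_mul]
  have hzero : x' = 0 := by
    refine ncz alg k (UPr U K) M n q V hV ℓ hℓ hN hq d hd t' hind x' ?_ ?_
    · intro H hH
      rw [hx', hae x H, pr_eq_zero]
      exact Eventually.of_forall fun Q => hxV Q H hH
    · intro i
      rw [hfv, pr_eq_zero]
      exact Eventually.of_forall fun Q => hx0 Q i
  have h1 : ∀ᶠ Q in (U : Filter I), ∀ j, x Q j = 0 := by
    rw [eventually_all]
    intro j
    have : x' j = 0 := congrFun hzero j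
    rwa [hx', pr_eq_zero] at this
  obtain ⟨Q, hQ⟩ := h1.exists
  exact hx Q (funext hQ)

end Pool.Agent.Run7.h789.FV
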