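import Pool.Agent.Run7.h789.FV.Mul
import Pool.Agent.Run7.h789.FV.NczO
import Pool.Agent.NH29.GN.Fin3

/-!
# The height inequality over function fields: final forms
-/

set_option autoImplicit false

open FF Pool.Agent.W603.LV Pool.Agent.W603.PV MvPolynomial Filter

namespace Pool.Agent.Run7.h789.FV

open Pool.Agent.NH29.GN (Idx Mon fv val quo NoZero Num2)
open Pool.Agent.NH29.GN.Hi (Pt2 mon0 fv_scale)

open Classical in
/-- the forms which vanish at `x` -/
noncomputable def van {L : Type} [Field L] {M q : ℕ} {d : Fin q → ℕ} (t : Idx M d → L)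
    (x : Fin (M + 1) → L) : Finset (Fin q) :=
  Finset.univ.filter fun b => fv t x b = 0

/-- the inequality for all points of `V` -/
theorem fv_all {k₀ : Type} [Field k₀] [CharZero k₀] (c₀ : k₀ → ℕ) {M n q : ℕ}
    {V : Set (MvPolynomial (Fin (M + 1)) k₀)} (hV : ∀ H ∈ V, ∃ e, H.IsHomogeneous e)
    {ℓ : Fin (n + 1) → MvPolynomial (Fin (M + 1)) k₀} (hℓ : ∀ j, (ℓ j).IsHomogeneous 1)
    (hN : NoZero V ℓ) (hq : n + 1 ≤ q) {d : Fin q → ℕ} (hd : ∀ i, 1 ≤ d i)
    (hNum : ∀ C : Finset (Fin q), C ≠ Finset.univ → Num2 n d C) :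
    ∃ Φ : MvPolynomial (Idx M d) k₀, Φ ≠ 0 ∧ ∃ A μ : ℕ,
      ∀ (k L : Type) [Field k] [Field L] [IsAlgClosed k] [CharZero k] [Algebra k L]
        [Algebra k₀ L] [IsFF k L] (w : ℕ), (∀ a : k₀, hgt k (algebraMap k₀ L a) ≤ c₀ a * w) →
      ∀ t : Idx M d → L, aeval t Φ ≠ 0 → (∀ s, t s ≠ 0) ∧ ∀ x : Fin (M + 1) → L, x ≠ 0 →
        (∀ H ∈ V, aeval x H = 0) → (∃ b, fv t x b ≠ 0) ∧
          pht k x ≤ A * rhsL k μ w (van t x) t x := by
  classical
  obtain ⟨Φ, h1, A, μ, h2⟩ := fv_main c₀ hV hℓ hN hq hd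
  obtain ⟨Φ', h3, h4⟩ := ncz_open hV hℓ hN hq hd
  refine ⟨Φ * Φ' * ∏ s, X s, mul_ne_zero (mul_ne_zero h1 h3)
    (Finset.prod_ne_zero_iff.2 fun s _ => X_ne_zero s), A, μ,
    fun k L _ _ _ _ _ _ _ w hw t ht => ?_⟩
  rw [map_mul, map_mul, map_prod, mul_ne_zero_iff, mul_ne_zero_iff, Finset.prod_ne_zero_iff] at ht
  refine ⟨fun s => ?_, fun x hx hxV => ?_⟩
  · have := ht.2 s (Finset.mem_univ _)
    rwa [aeval_X] at this
  · have h5 : ∃ b, fv t x b ≠ 0 := by
      by_contra hcon
      push Not at hcon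
      exact hx (h4 L t ht.1.2 x hxV hcon)
    refine ⟨h5, ?_⟩
    obtain ⟨b, hb⟩ := h5
    have hC : van t x ≠ Finset.univ := by
      intro h
      have h6 : b ∈ van t x := by
        rw [h]
        exact Finset.mem_univ _
      exact hb (Finset.mem_filter.1 h6).2
    refine h2 k L w hw t ht.1.1 (van t x) (hNum _ hC) x ⟨hx, hxV, fun c hc => ?_, fun c hc => ?_⟩
    · exact (Finset.mem_filter.1 hc).2
    · exact fun h => hc (Finset.mem_filter.2 ⟨Finset.mem_univ _, h⟩)

/-- constants have height zero -/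
theorem hgt_base {k₀ k L : Type} [Field k₀] [Field k] [Field L] [CharZero k] [IsAlgClosed k]
    [Algebra k₀ k] [Algebra k L] [Algebra k₀ L] [IsScalarTower k₀ k L] [IsFF k L] (a : k₀) :
    hgt k (algebraMap k₀ L a) = 0 := by
  rw [IsScalarTower.algebraMap_apply k₀ k L]
  exact hgt_const _

/-- a lower bound for the canonical degree, over a fixed function field -/
theorem exists_canDeg {k E : Type} [Field k] [Field E] [CharZero k] [IsAlgClosed k] [Algebra k E]
    [IsFF k E] : ∃ B : ℕ, ∀ (L : Type) [Field L] [Algebra k L] [Algebra E L]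
      [IsScalarTower k E L] [FiniteDimensional E L],
      - (B : ℤ) * Module.finrank E L ≤ canDeg k L := by
  obtain ⟨f, hf⟩ := IsFF.exists_transcendental (k := k) (K := E)
  refine ⟨(2 * hgt k f).toNat, fun L _ _ _ _ _ => ?_⟩
  have hFF : IsFF k L := isFF_of_finite (F := E)
  have h1 := canDeg_ge (k := k) (K := L) (t := algebraMap E L f)
    ((transcendental_algebraMap_iff (algebraMap E L).injective).2 hf)
  rw [hgt_algebraMap] at h1
  have h2 := hgt_nonneg (k := k) f
  have h3 : (((2 * hgt k f).toNat : ℕ) : ℤ) = 2 * hgt k f := Int.toNat_of_nonneg (by omega)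
  rw [h3]
  linarith

/-- the height of a point is at most the sum of the heights of the quotients of the coordinates -/
theorem mht_le {k L : Type} [Field k] [Field L] [CharZero k] [IsAlgClosed k] [Algebra k L]
    [IsFF k L] {ι : Type} [Fintype ι] (x : ι → L) {a₀ : ι} (ha₀ : x a₀ ≠ 0) :
    mht k x ≤ ∑ a, hgt k (x a / x a₀) := by
  classical
  obtain ⟨T, hT1, hT2⟩ := finite_mord (k := k) ⟨a₀, ha₀⟩
  have hT3 : ∀ a, ∀ P : Place k L, P.ord (x a / x a₀) ≠ 0 → P ∈ T := by
    intro a P hP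
    by_contra hcon
    apply hP
    by_cases ha : x a = 0
    · rw [ha, zero_div, P.ord_zero]
    · have h1 : P.ord (x a) = 0 := by
        by_contra h
        exact hcon (hT1 a P h)
      have h2 : P.ord (x a₀) = 0 := by
        by_contra h
        exact hcon (hT1 a₀ P h)
      rw [P.ord_div ha ha₀, h1, h2, sub_zero]
  have h0 := sum_ord_finset (k := k) (x a₀) T (hT1 a₀)
  have e0 : ∑ P ∈ T, - mord P x = ∑ P ∈ T, (- mord P x + P.ord (x a₀)) := by
    rw [Finset.sum_add_distrib, h0, add_zero]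
  rw [mht_finset T hT2, Finset.sum_congr rfl fun a _ => hgt_finset _ T (hT3 a), Finset.sum_comm,
    e0]
  refine Finset.sum_le_sum fun P _ => ?_
  obtain ⟨a, ha, h1⟩ := exists_mord P ⟨a₀, ha₀⟩
  refine le_trans ?_ (Finset.single_le_sum (f := fun a => max (-P.ord (x a / x a₀)) 0)
    (fun _ _ => le_max_right _ _) (Finset.mem_univ a))
  refine le_trans ?_ (le_max_left _ _)
  rw [P.ord_div ha ha₀, h1]
  omega

/-- heights over finite extensions -/
theorem exists_mht {k E : Type} [Field k] [Field E] [CharZero k] [IsAlgClosed k] [Algebra k E]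
    [IsFF k E] {ι : Type} [Fintype ι] (y : ι → E) : ∃ B : ℕ, ∀ (L : Type) [Field L] [Algebra k L]
      [Algebra E L] [IsScalarTower k E L] [FiniteDimensional E L],
      mht k (fun j => algebraMap E L (y j)) ≤ B * Module.finrank E L := by
  classical
  by_cases hy : ∃ j, y j ≠ 0
  · obtain ⟨a₀, ha₀⟩ := hy
    refine ⟨(∑ a, hgt k (y a / y a₀)).toNat, fun L _ _ _ _ _ => ?_⟩
    have hFF : IsFF k L := isFF_of_finite (F := E)
    have h1 : (fun j => algebraMap E L (y j)) a₀ ≠ 0 := by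
      intro h
      exact ha₀ ((map_eq_zero _).1 h)
    refine (mht_le (k := k) (fun j => algebraMap E L (y j)) h1).trans (le_of_eq ?_)
    rw [Int.toNat_of_nonneg (Finset.sum_nonneg fun _ _ => hgt_nonneg _), Finset.sum_mul]
    refine Finset.sum_congr rfl fun a _ => ?_
    rw [← map_div₀, hgt_algebraMap, mul_comm]
  · push Not at hy
    refine ⟨0, fun L _ _ _ _ _ => ?_⟩
    have h1 : mht k (fun j => algebraMap E L (y j)) = 0 := by
      unfold mht
      rw [finsum_eq_zero_of_forall_eq_zero, neg_zero]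
      intro P
      unfold mord
      have h2 : IsEmpty {j // (fun j => algebraMap E L (y j)) j ≠ 0} :=
        ⟨fun j => j.2 (by simp only [hy, map_zero])⟩
      rw [iInf_of_isEmpty, Int.csInf_empty]
    rw [h1]
    simp

end Pool.Agent.Run7.h789.FV
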