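import Pool.Agent.W603.PV.Ext

/-!
# Heights of functions: sums and roots
-/

set_option autoImplicit false

open FF Pool.Agent.W603.LV Pool.Agent.W603.PV

namespace Pool.Agent.Run7.h789.FV

variable {k K : Type} [Field k] [Field K] [Algebra k K]

theorem hgt_zero : hgt k (0 : K) = 0 := by
  unfold hgt
  rw [finsum_eq_zero_of_forall_eq_zero]
  intro P
  rw [P.ord_zero]
  simp

theorem hgt_neg (a : K) : hgt k (-a) = hgt k a := hgt_congr fun P => P.ord_neg a

variable [CharZero k] [IsFF k K]

theorem hgt_mul' (f g : K) : hgt k (f * g) ≤ hgt k f + hgt k g := by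
  by_cases hf : f = 0
  · rw [hf, zero_mul, hgt_zero]
    have := hgt_nonneg (k := k) g
    omega
  by_cases hg : g = 0
  · rw [hg, mul_zero, hgt_zero]
    have := hgt_nonneg (k := k) f
    omega
  exact hgt_mul hf hg

theorem hgt_add (f g : K) : hgt k (f + g) ≤ hgt k f + hgt k g := by
  by_cases hf : f = 0
  · rw [hf, zero_add, hgt_zero, zero_add]
  by_cases hg : g = 0
  · rw [hg, add_zero, hgt_zero, add_zero]
  by_cases hfg : f + g = 0
  · rw [hfg, hgt_zero]
    have := hgt_nonneg (k := k) f
    have := hgt_nonneg (k := k) g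
    omega
  obtain ⟨T, hT⟩ := exists_supp (k := k) (Finset.univ : Finset (Fin 3)) ![f, g, f + g]
  rw [hgt_finset f T (hT 0 (Finset.mem_univ _)), hgt_finset g T (hT 1 (Finset.mem_univ _)),
    hgt_finset (f + g) T (hT 2 (Finset.mem_univ _)), ← Finset.sum_add_distrib]
  refine Finset.sum_le_sum fun P _ => ?_
  have := P.ord_add hf hg hfg
  omega

theorem hgt_const (c : k) : hgt k (algebraMap k K c) = 0 := by
  by_cases hc : c = 0
  · rw [hc, map_zero, hgt_zero]
  · unfold hgt
    rw [finsum_eq_zero_of_forall_eq_zero]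
    intro P
    rw [P.ord_const hc]
    simp

/-- the height of a root of a monic polynomial -/
theorem hgt_root (n : ℕ) (g : K) (a : Fin n → K) (h : g ^ n = ∑ j, a j * g ^ (j : ℕ)) :
    hgt k g ≤ ∑ j, hgt k (a j) := by
  classical
  obtain ⟨T, hT⟩ := exists_supp (k := k) (Finset.univ : Finset (Option (Fin n)))
    (fun j => j.elim g a)
  rw [hgt_finset g T (hT none (Finset.mem_univ _)),
    Finset.sum_congr rfl fun j _ => hgt_finset (a j) T (hT (some j) (Finset.mem_univ _)),
    Finset.sum_comm]
  refine Finset.sum_le_sum fun P _ => ?_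
  have hs0 : (0 : ℤ) ≤ ∑ j, max (-P.ord (a j)) 0 :=
    Finset.sum_nonneg fun j _ => le_max_right _ _
  refine max_le ?_ hs0
  by_contra hcon
  push Not at hcon
  have hg0 : g ≠ 0 := by
    rintro rfl
    rw [P.ord_zero] at hcon
    omega
  have hj : ∀ j, -P.ord (a j) < - P.ord g := fun j =>
    lt_of_le_of_lt ((le_max_left _ _).trans (Finset.single_le_sum
      (f := fun j => max (-P.ord (a j)) 0) (fun _ _ => le_max_right _ _) (Finset.mem_univ j))) hcon
  have hneg : P.ord g < 0 := by omega
  have h1 : Ge P ((n : ℤ) * P.ord g + 1) (g ^ n) := by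
    rw [h]
    refine Ge.sum _ _ fun j _ => ?_
    have h2 : Ge P (P.ord g + 1) (a j) := by
      by_cases ha : a j = 0
      · exact Or.inl ha
      · right
        have := hj j
        omega
    have h3 := h2.mul ((show Ge P (P.ord g) g from Or.inr le_rfl).pow (j : ℕ))
    refine h3.mono ?_
    have h4 : ((j : ℕ) : ℤ) + 1 ≤ n := by exact_mod_cast j.2
    nlinarith
  rcases h1 with h1 | h1
  · exact pow_ne_zero _ hg0 h1
  · rw [P.ord_pow] at h1
    omega

end Pool.Agent.Run7.h789.FV
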