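import Pool.Agent.Run7.h789.FV.Pj

/-!
# The height inequality over function fields: all strata, and the places of high multiplicity
-/

set_option autoImplicit false

open FF Pool.Agent.W603.LV Pool.Agent.W603.PV MvPolynomial Filter

namespace Pool.Agent.Run7.h789.FV

open Pool.Agent.NH29.GN (Idx Mon fv val quo NoZero Num2)
open Pool.Agent.NH29.GN.Hi (Pt2 mon0 fv_scale)

/-- all strata -/
theorem pj_all {k₀ : Type} [Field k₀] [CharZero k₀] (c₀ : k₀ → ℕ) {M n q : ℕ}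
    {V : Set (MvPolynomial (Fin (M + 1)) k₀)} (hV : ∀ H ∈ V, ∃ e, H.IsHomogeneous e)
    {ℓ : Fin (n + 1) → MvPolynomial (Fin (M + 1)) k₀} (hℓ : ∀ j, (ℓ j).IsHomogeneous 1)
    (hN : NoZero V ℓ) (hq : n + 1 ≤ q) {d : Fin q → ℕ} (hd : ∀ i, 1 ≤ d i) :
    ∃ Φ : MvPolynomial (Idx M d) k₀, Φ ≠ 0 ∧ ∃ A : ℕ,
      ∀ (k L : Type) [Field k] [Field L] [IsAlgClosed k] [CharZero k] [Algebra k L]
        [Algebra k₀ L] [IsFF k L] (w : ℕ), (∀ a : k₀, hgt k (algebraMap k₀ L a) ≤ c₀ a * w) →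
      ∀ t : Idx M d → L, aeval t Φ ≠ 0 → (∀ s, t s ≠ 0) ∧ ∀ C : Finset (Fin q), Num2 n d C →
        ∀ x : Fin (M + 1) → L, Pt2 V C t x → pht k x ≤ A * rhsP k w C t x := by
  classical
  have h1 : ∀ C : Finset (Fin q), ∃ Φ : MvPolynomial (Idx M d) k₀, Φ ≠ 0 ∧ ∃ A : ℕ, Num2 n d C →
      ∀ (k L : Type) [Field k] [Field L] [IsAlgClosed k] [CharZero k] [Algebra k L]
        [Algebra k₀ L] [IsFF k L] (w : ℕ), (∀ a : k₀, hgt k (algebraMap k₀ L a) ≤ c₀ a * w) →
      ∀ t : Idx M d → L, aeval t Φ ≠ 0 → (∀ s, t s ≠ 0) ∧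
        ∀ x : Fin (M + 1) → L, Pt2 V C t x → pht k x ≤ A * rhsP k w C t x := by
    intro C
    by_cases hC : Num2 n d C
    · obtain ⟨Φ, h1, A, h2⟩ := pj_one c₀ hV hℓ hN hq hd C hC
      exact ⟨Φ, h1, A, fun _ => h2⟩
    · exact ⟨1, one_ne_zero, 0, fun h => absurd h hC⟩
  choose Φ h1 A h2 using h1
  refine ⟨(∏ C, Φ C) * ∏ s, X s, mul_ne_zero (Finset.prod_ne_zero_iff.2 fun C _ => h1 C)
    (Finset.prod_ne_zero_iff.2 fun s _ => X_ne_zero s), ∑ C, A C,
    fun k L _ _ _ _ _ _ _ w hw t ht => ?_⟩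
  rw [map_mul, map_prod, map_prod, mul_ne_zero_iff, Finset.prod_ne_zero_iff,
    Finset.prod_ne_zero_iff] at ht
  have ht0 : ∀ s, t s ≠ 0 := fun s => by
    have := ht.2 s (Finset.mem_univ _)
    rwa [aeval_X] at this
  refine ⟨ht0, fun C hC x hx => ?_⟩
  refine (((h2 C hC k L w hw t (ht.1 C (Finset.mem_univ _))).2 x hx)).trans ?_
  have h3 : (0 : ℤ) ≤ rhsP k w C t x :=
    add_nonneg (add_nonneg (le_max_right _ _) (Int.natCast_nonneg _))
      (Finset.sum_nonneg fun b _ => mht_nonneg ⟨mon0 M (d b), ht0 _⟩)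
  refine mul_le_mul_of_nonneg_right ?_ h3
  exact_mod_cast Finset.single_le_sum (f := A) (fun _ _ => Nat.zero_le _) (Finset.mem_univ C)

section

variable {k L : Type} [Field k] [Field L] [Algebra k L]

/-- the places at which `x` meets one of the hypersurfaces `F b = 0`, `b ∉ C`, with a multiplicity
less than `μ` -/
def low (k : Type) {L : Type} [Field k] [Field L] [Algebra k L] {M q : ℕ} {d : Fin q → ℕ}
    (μ : ℕ) (C : Finset (Fin q)) (t : Idx M d → L) (x : Fin (M + 1) → L) : Set (Place k L) :=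
  {P | ∃ b, b ∉ C ∧ mord P (fun β => t ⟨b, β⟩) + d b * mord P x < P.ord (fv t x b) ∧
    P.ord (fv t x b) < mord P (fun β => t ⟨b, β⟩) + d b * mord P x + μ}

/-- the right hand side, with these places -/
noncomputable def rhsL (k : Type) {L : Type} [Field k] [Field L] [Algebra k L] {M q : ℕ}
    {d : Fin q → ℕ} (μ w : ℕ) (C : Finset (Fin q)) (t : Idx M d → L) (x : Fin (M + 1) → L) : ℤ :=
  max (canDeg k L + (low k μ C t x).ncard) 0 + w + ∑ b, mht k (fun β : Mon M (d b) => t ⟨b, β⟩)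

variable [CharZero k] [IsFF k L] [IsAlgClosed k]

/-- the places of multiplicity at least `μ` -/
theorem card_high {M q : ℕ} {d : Fin q → ℕ} {C : Finset (Fin q)} {t : Idx M d → L}
    {x : Fin (M + 1) → L} (ht0 : ∀ s, t s ≠ 0) (hx : x ≠ 0) (hoff : ∀ b, b ∉ C → fv t x b ≠ 0)
    (μ : ℕ) : (μ : ℤ) * (meets k C t x).ncard ≤ μ * (low k μ C t x).ncard +
      (∑ b, (d b : ℤ)) * pht k x + ∑ b, mht k (fun β : Mon M (d b) => t ⟨b, β⟩) := by
  classical
  have hfin := finite_meets (k := k) hx hoff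
  have hlow : low k μ C t x ⊆ meets k C t x := fun P ⟨b, hb, h, _⟩ => ⟨b, hb, h⟩
  have hflow := hfin.subset hlow
  set HI : Finset (Place k L) := hfin.toFinset.filter fun P => ∃ b, b ∉ C ∧
    mord P (fun β => t ⟨b, β⟩) + d b * mord P x + μ ≤ P.ord (fv t x b) with hHI
  have h1 : (meets k C t x).ncard ≤ (low k μ C t x).ncard + HI.card := by
    rw [Set.ncard_eq_toFinset_card _ hfin, Set.ncard_eq_toFinset_card _ hflow]
    refine (Finset.card_le_card ?_).trans (Finset.card_union_le _ _)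
    intro P hP
    rw [Finset.mem_union, Set.Finite.mem_toFinset]
    have hP' : P ∈ meets k C t x := (Set.Finite.mem_toFinset hfin).1 hP
    obtain ⟨b, hb, h2⟩ := hP'
    by_cases h3 : P.ord (fv t x b) < mord P (fun β => t ⟨b, β⟩) + d b * mord P x + μ
    · exact Or.inl ⟨b, hb, h2, h3⟩
    · exact Or.inr (Finset.mem_filter.2 ⟨hP, b, hb, not_lt.1 h3⟩)
  -- the multiplicities
  have hxe : ∃ a, x a ≠ 0 := Function.ne_iff.1 hx
  obtain ⟨T1, hT1, hT1'⟩ := finite_mord (k := k) hxe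
  have hte : ∀ b, ∃ β, (fun β : Mon M (d b) => t ⟨b, β⟩) β ≠ 0 := fun b =>
    ⟨mon0 M (d b), ht0 _⟩
  choose T2 hT2 hT2' using fun b => finite_mord (k := k) (hte b)
  obtain ⟨T3, hT3⟩ := exists_supp (k := k) Finset.univ (fun b => fv t x b)
  set T : Finset (Place k L) := T1 ∪ Finset.univ.biUnion T2 ∪ T3 ∪ HI with hT
  have hTx : ∀ P : Place k L, mord P x ≠ 0 → P ∈ T := fun P hP => by
    rw [hT, Finset.mem_union, Finset.mem_union, Finset.mem_union]
    exact Or.inl (Or.inl (Or.inl (hT1' P hP)))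
  have hTt : ∀ b, ∀ P : Place k L, mord P (fun β => t ⟨b, β⟩) ≠ 0 → P ∈ T := fun b P hP => by
    rw [hT, Finset.mem_union, Finset.mem_union, Finset.mem_union]
    exact Or.inl (Or.inl (Or.inr (Finset.mem_biUnion.2 ⟨b, Finset.mem_univ _, hT2' b P hP⟩)))
  have hTf : ∀ b, ∀ P : Place k L, P.ord (fv t x b) ≠ 0 → P ∈ T := fun b P hP => by
    rw [hT, Finset.mem_union, Finset.mem_union]
    exact Or.inl (Or.inr (hT3 b (Finset.mem_univ _) P hP))
  have hHT : HI ⊆ T := Finset.subset_union_right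
  have hmul0 : ∀ b, b ∉ C → ∀ P : Place k L,
      0 ≤ P.ord (fv t x b) - mord P (fun β => t ⟨b, β⟩) - d b * mord P x := by
    intro b hb P
    rcases ge_fv P t x b with h2 | h2
    · exact absurd h2 (hoff b hb)
    · omega
  have hsum : ∀ b, b ∉ C → ∑ P ∈ T, (P.ord (fv t x b) - mord P (fun β => t ⟨b, β⟩) -
      d b * mord P x) = mht k (fun β : Mon M (d b) => t ⟨b, β⟩) + d b * pht k x := by
    intro b hb
    have e1 := mht_finset (k := k) T (hTt b)
    have e2 : pht k x = ∑ P ∈ T, - mord P x := mht_finset (k := k) T hTx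
    have e3 := sum_ord_finset (k := k) (fv t x b) T (hTf b)
    have e4 : ∑ P ∈ T, (d b : ℤ) * mord P x = - ((d b : ℤ) * pht k x) := by
      rw [e2, Finset.sum_neg_distrib, ← Finset.mul_sum]
      ring
    rw [Finset.sum_sub_distrib, Finset.sum_sub_distrib, e3, e1, e4, Finset.sum_neg_distrib]
    ring
  have h4 : (μ : ℤ) * HI.card ≤ ∑ b ∈ Cᶜ, ∑ P ∈ T, (P.ord (fv t x b) -
      mord P (fun β => t ⟨b, β⟩) - d b * mord P x) := by
    rw [Finset.sum_comm]
    calc (μ : ℤ) * HI.card = ∑ P ∈ HI, (μ : ℤ) := by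
          rw [Finset.sum_const, nsmul_eq_mul, mul_comm]
      _ ≤ ∑ P ∈ HI, ∑ b ∈ Cᶜ, (P.ord (fv t x b) - mord P (fun β => t ⟨b, β⟩) -
          d b * mord P x) := by
        refine Finset.sum_le_sum fun P hP => ?_
        obtain ⟨b, hb, h5⟩ := (Finset.mem_filter.1 hP).2
        refine le_trans ?_ (Finset.single_le_sum (f := fun b => P.ord (fv t x b) -
          mord P (fun β => t ⟨b, β⟩) - d b * mord P x)
          (fun b hb => hmul0 b (by simpa using hb) P) (Finset.mem_compl.2 hb))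
        omega
      _ ≤ _ := Finset.sum_le_sum_of_subset_of_nonneg hHT fun P _ _ =>
        Finset.sum_nonneg fun b hb => hmul0 b (by simpa using hb) P
  have h5 : ∑ b ∈ Cᶜ, ∑ P ∈ T, (P.ord (fv t x b) -
      mord P (fun β => t ⟨b, β⟩) - d b * mord P x) ≤
      (∑ b, (d b : ℤ)) * pht k x + ∑ b, mht k (fun β : Mon M (d b) => t ⟨b, β⟩) := by
    rw [Finset.sum_congr rfl fun b hb => hsum b (Finset.mem_compl.1 hb), Finset.sum_mul,
      ← Finset.sum_add_distrib]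
    refine (Finset.sum_le_sum_of_subset_of_nonneg (Finset.subset_univ _) fun b _ _ => ?_).trans
      (le_of_eq (Finset.sum_congr rfl fun b _ => add_comm _ _))
    have h6 : 0 ≤ pht k x := mht_nonneg hxe
    have h7 := mht_nonneg (k := k) (hte b)
    have h8 : (0 : ℤ) ≤ d b * pht k x := mul_nonneg (Int.natCast_nonneg _) h6
    linarith
  have h6 : ((meets k C t x).ncard : ℤ) ≤ (low k μ C t x).ncard + HI.card := by exact_mod_cast h1
  have h7 := mul_le_mul_of_nonneg_left h6 (Int.natCast_nonneg μ)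
  rw [mul_add] at h7
  linarith

/-- the places of high multiplicity need not be counted -/
theorem low_of_meets {M q : ℕ} {d : Fin q → ℕ} {C : Finset (Fin q)} {t : Idx M d → L}
    {x : Fin (M + 1) → L} (ht0 : ∀ s, t s ≠ 0) (hx : x ≠ 0) (hoff : ∀ b, b ∉ C → fv t x b ≠ 0)
    (w A : ℕ) (h : pht k x ≤ A * rhsP k w C t x) :
    pht k x ≤ (A * (A * ∑ b, d b + 2) : ℕ) * rhsL k (A * ∑ b, d b + 1) w C t x := by
  set μ : ℕ := A * ∑ b, d b + 1 with hμ
  have h1 := card_high (k := k) ht0 hx hoff μ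
  unfold rhsP at h
  unfold rhsL
  set m : ℤ := ((meets k C t x).ncard : ℤ) with hm
  set l : ℤ := ((low k μ C t x).ncard : ℤ) with hl
  set c : ℤ := canDeg k L with hc
  set Y : ℤ := ∑ b, mht k (fun β : Mon M (d b) => t ⟨b, β⟩) with hYd
  set D : ℤ := ∑ b, (d b : ℤ) with hD
  set p : ℤ := pht k x with hp
  have hY : 0 ≤ Y := Finset.sum_nonneg fun b _ => mht_nonneg ⟨mon0 M (d b), ht0 _⟩
  have hp0 : 0 ≤ p := mht_nonneg (Function.ne_iff.1 hx)
  have hD0 : 0 ≤ D := Finset.sum_nonneg fun b _ => Int.natCast_nonneg _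
  have hμD : (μ : ℤ) = A * D + 1 := by
    rw [hμ, hD]
    push_cast
    ring
  have hA0 : (0 : ℤ) ≤ A := Int.natCast_nonneg _
  have hμ0 : (0 : ℤ) ≤ μ := Int.natCast_nonneg _
  have hw0 : (0 : ℤ) ≤ w := Int.natCast_nonneg _
  -- the maximum
  have h2 : (μ : ℤ) * max (c + m) 0 ≤ μ * max (c + l) 0 + D * p + Y := by
    rcases le_total 0 (c + m) with h3 | h3
    · rw [max_eq_left h3]
      have h4 : (μ : ℤ) * (c + l) ≤ μ * max (c + l) 0 :=
        mul_le_mul_of_nonneg_left (le_max_left _ _) hμ0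
      nlinarith
    · rw [max_eq_right h3, mul_zero]
      have h4 : (0 : ℤ) ≤ μ * max (c + l) 0 := mul_nonneg hμ0 (le_max_right _ _)
      have h5 : 0 ≤ D * p := mul_nonneg hD0 hp0
      linarith
  have h3 : (μ : ℤ) * p ≤ A * (μ * max (c + l) 0 + D * p + Y + μ * w + μ * Y) := by
    calc (μ : ℤ) * p ≤ μ * (A * (max (c + m) 0 + w + Y)) := mul_le_mul_of_nonneg_left h hμ0
      _ = A * (μ * max (c + m) 0 + μ * w + μ * Y) := by ring
      _ ≤ _ := mul_le_mul_of_nonneg_left (by linarith) hA0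
  have h4 : p ≤ A * (μ * max (c + l) 0 + Y + μ * w + μ * Y) := by
    have : (μ : ℤ) * p = A * D * p + p := by
      rw [hμD]
      ring
    rw [this] at h3
    nlinarith
  have h5 : (0 : ℤ) ≤ max (c + l) 0 := le_max_right _ _
  have h6 : ((A * (A * ∑ b, d b + 2) : ℕ) : ℤ) = A * (μ + 1) := by
    rw [hμD, hD]
    push_cast
    ring
  rw [h6, mul_assoc]
  refine h4.trans (mul_le_mul_of_nonneg_left ?_ hA0)
  nlinarith

end

/-- the general inequality -/
theorem fv_main {k₀ : Type} [Field k₀] [CharZero k₀] (c₀ : k₀ → ℕ) {M n q : ℕ}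
    {V : Set (MvPolynomial (Fin (M + 1)) k₀)} (hV : ∀ H ∈ V, ∃ e, H.IsHomogeneous e)
    {ℓ : Fin (n + 1) → MvPolynomial (Fin (M + 1)) k₀} (hℓ : ∀ j, (ℓ j).IsHomogeneous 1)
    (hN : NoZero V ℓ) (hq : n + 1 ≤ q) {d : Fin q → ℕ} (hd : ∀ i, 1 ≤ d i) :
    ∃ Φ : MvPolynomial (Idx M d) k₀, Φ ≠ 0 ∧ ∃ A μ : ℕ,
      ∀ (k L : Type) [Field k] [Field L] [IsAlgClosed k] [CharZero k] [Algebra k L]
        [Algebra k₀ L] [IsFF k L] (w : ℕ), (∀ a : k₀, hgt k (algebraMap k₀ L a) ≤ c₀ a * w) →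
      ∀ t : Idx M d → L, aeval t Φ ≠ 0 → ∀ C : Finset (Fin q), Num2 n d C →
        ∀ x : Fin (M + 1) → L, Pt2 V C t x → pht k x ≤ A * rhsL k μ w C t x := by
  obtain ⟨Φ, h1, A, h2⟩ := pj_all c₀ hV hℓ hN hq hd
  refine ⟨Φ, h1, A * (A * ∑ b, d b + 2), A * ∑ b, d b + 1,
    fun k L _ _ _ _ _ _ _ w hw t ht C hC x hx => ?_⟩
  obtain ⟨ht0, h3⟩ := h2 k L w hw t ht
  exact low_of_meets ht0 hx.ne hx.off w A (h3 C hC x hx)

end Pool.Agent.Run7.h789.FV
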