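import Pool.Agent.Run7.h789.FV.Aff

/-!
# The height inequality over function fields, affine version, one stratum
-/

set_option autoImplicit false

open FF Pool.Agent.W603.LV Pool.Agent.W603.PV MvPolynomial Filter

namespace Pool.Agent.Run7.h789.FV

open Pool.Agent.NH29.GN (Idx Mon fv val quo NoZero Num2 HFam Sm stb2 sml ld)
open Pool.Agent.NH29.GN.Hi (Pt2 stcP sm_mul sm_inv)

/-! ## Small sequences of real numbers -/

/-- small compared to `H` -/
def SmR (𝒰 : Ultrafilter ℕ) (H f : ℕ → ℝ) : Prop :=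
  ∀ N : ℕ, ∀ᶠ s in (𝒰 : Filter ℕ), N * f s ≤ H s

section SmR

variable {𝒰 : Ultrafilter ℕ} {H f g : ℕ → ℝ}

theorem SmR.mono (hf : SmR 𝒰 H f) (h : ∀ᶠ s in (𝒰 : Filter ℕ), g s ≤ f s) : SmR 𝒰 H g := by
  intro N
  filter_upwards [hf N, h] with s h1 h2
  exact (mul_le_mul_of_nonneg_left h2 (Nat.cast_nonneg N)).trans h1

theorem SmR.add (hf : SmR 𝒰 H f) (hg : SmR 𝒰 H g) : SmR 𝒰 H fun s => f s + g s := by
  intro N
  filter_upwards [hf (2 * N), hg (2 * N)] with s h1 h2
  push_cast at h1 h2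
  linarith

theorem SmR.const_mul (hf : SmR 𝒰 H f) (hf0 : ∀ s, 0 ≤ f s) (c : ℝ) :
    SmR 𝒰 H fun s => c * f s := by
  intro N
  obtain ⟨c', hc'⟩ := exists_nat_ge c
  filter_upwards [hf (N * c')] with s h1
  push_cast at h1
  refine le_trans ?_ h1
  rw [mul_assoc]
  exact mul_le_mul_of_nonneg_left (mul_le_mul_of_nonneg_right hc' (hf0 s)) (Nat.cast_nonneg N)

theorem SmR.sum {ι : Type} [DecidableEq ι] (hH : ∀ᶠ s in (𝒰 : Filter ℕ), 0 ≤ H s) (T : Finset ι)
    {F : ι → ℕ → ℝ} (h : ∀ i ∈ T, SmR 𝒰 H (F i)) : SmR 𝒰 H fun s => ∑ i ∈ T, F i s := by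
  induction T using Finset.induction_on with
  | empty =>
    intro N
    filter_upwards [hH] with s hs
    simpa using hs
  | insert a T ha ih =>
    have h1 := (h a (Finset.mem_insert_self a T)).add
      (ih fun i hi => h i (Finset.mem_insert_of_mem hi))
    simpa [Finset.sum_insert ha] using h1

end SmR

theorem ev_exists {𝒰 : Ultrafilter ℕ} {ι : Type} [Finite ι] {Q : ι → ℕ → Prop}
    (h : ∀ᶠ s in (𝒰 : Filter ℕ), ∃ i, Q i s) : ∃ i, ∀ᶠ s in (𝒰 : Filter ℕ), Q i s := by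
  by_contra hcon
  push Not at hcon
  have h1 : ∀ᶠ s in (𝒰 : Filter ℕ), ∀ i, ¬ Q i s :=
    eventually_all.2 hcon
  obtain ⟨s, ⟨i, h2⟩, h3⟩ := (h.and h1).exists
  exact h3 i h2

/-! ## One stratum -/

section

variable {k L : Type} [Field k] [Field L] [Algebra k L]

/-- the right hand side -/
noncomputable def rhs (k : Type) {L : Type} [Field k] [Field L] [Algebra k L] {M q : ℕ}
    {d : Fin q → ℕ} (w : ℕ) (C : Finset (Fin q)) (t : Idx M d → L) (x : Fin (M + 1) → L) : ℤ :=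
  max (canDeg k L + (meets k C t x).ncard) 0 + w + ∑ s, hgt k (t s)

theorem rhs_nonneg {M q : ℕ} {d : Fin q → ℕ} (w : ℕ) (C : Finset (Fin q)) (t : Idx M d → L)
    (x : Fin (M + 1) → L) : 0 ≤ rhs k w C t x :=
  add_nonneg (add_nonneg (le_max_right _ _) (Int.natCast_nonneg _))
    (Finset.sum_nonneg fun _ _ => hgt_nonneg _)

variable [CharZero k] [IsFF k L] [IsAlgClosed k]

/-- the relation step at one place of the sequence -/
theorem rel_step {M q : ℕ} {d : Fin q → ℕ} {C : Finset (Fin q)} {t : Idx M d → L}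
    {x : Fin (M + 1) → L} (hx : x ≠ 0) (hoff : ∀ b, b ∉ C → fv t x b ≠ 0) {b₀ : Fin q}
    (hb₀ : b₀ ∉ C) {J : Type} [Fintype J] [Nonempty J] (m : J → Fin q → ℤ) (c : J → L)
    (hc : ∀ j, c j ≠ 0) (hrel : ∑ j, c j * ∏ b, quo C t x b₀ b ^ m j b = 0) :
    ∃ i j, i ≠ j ∧ hgt k ((∏ b, quo C t x b₀ b ^ m i b) / ∏ b, quo C t x b₀ b ^ m j b) ≤
      kb (Fintype.card J) * (max (canDeg k L + (meets k C t x).ncard) 0 +
        2 * ∑ s, hgt k (t s) + 2 * ∑ j, hgt k (c j)) + 2 * ∑ j, hgt k (c j) := by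
  classical
  have hq0 : ∀ b, quo C t x b₀ b ≠ 0 := by
    intro b
    unfold quo
    split_ifs with hb
    · exact one_ne_zero
    · exact div_ne_zero (pow_ne_zero _ (hoff b hb)) (pow_ne_zero _ (hoff b₀ hb₀))
  have hp0 : ∀ j, ∏ b, quo C t x b₀ b ^ m j b ≠ 0 := fun j =>
    Finset.prod_ne_zero_iff.2 fun b _ => zpow_ne_zero _ (hq0 b)
  obtain ⟨T1, hT1, hT1c⟩ := exists_zp (k := k) Finset.univ t
  obtain ⟨T2, hT2, hT2c⟩ := exists_zp (k := k) Finset.univ c
  have hfin := finite_meets (k := k) hx hoff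
  set S : Finset (Place k L) := hfin.toFinset ∪ T1 ∪ T2 with hS
  have hSc : (S.card : ℤ) ≤ (meets k C t x).ncard + 2 * ∑ s, hgt k (t s) +
      2 * ∑ j, hgt k (c j) := by
    have h1 := Finset.card_union_le (hfin.toFinset ∪ T1) T2
    have h2 := Finset.card_union_le hfin.toFinset T1
    have h3 : (meets k C t x).ncard = hfin.toFinset.card := Set.ncard_eq_toFinset_card _ hfin
    have h4 : S.card ≤ (meets k C t x).ncard + T1.card + T2.card := by
      rw [hS, h3]
      omega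
    have h5 : (S.card : ℤ) ≤ (meets k C t x).ncard + T1.card + T2.card := by exact_mod_cast h4
    have h6 : (T1.card : ℤ) ≤ 2 * ∑ s, hgt k (t s) := hT1c
    have h7 : (T2.card : ℤ) ≤ 2 * ∑ j, hgt k (c j) := hT2c
    linarith
  have hord : ∀ P ∉ S, ∀ j, P.ord (c j * ∏ b, quo C t x b₀ b ^ m j b) = 0 := by
    intro P hP j
    rw [hS, Finset.mem_union, Finset.mem_union, not_or, not_or, Set.Finite.mem_toFinset] at hP
    have h1 : ∀ s, P.ord (t s) = 0 := fun s => by
      by_contra h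
      exact hP.1.2 (hT1 s (Finset.mem_univ _) P h)
    have h2 : P.ord (c j) = 0 := by
      by_contra h
      exact hP.2 (hT2 j (Finset.mem_univ _) P h)
    have h3 : ∀ b, b ∉ C → P.ord (fv t x b) = d b * mord P x := by
      intro b hb
      rw [ord_fv P hP.1.1 hb (hoff b hb), mord_eq_zero P (t_ne (hoff b hb)) fun a _ => h1 _,
        zero_add]
    have h4 : ∀ b, P.ord (quo C t x b₀ b) = 0 := by
      intro b
      unfold quo
      split_ifs with hb
      · exact P.ord_one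
      · rw [P.ord_div (pow_ne_zero _ (hoff b hb)) (pow_ne_zero _ (hoff b₀ hb₀)), P.ord_pow,
          P.ord_pow, h3 b hb, h3 b₀ hb₀]
        ring
    rw [P.ord_mul (hc j) (hp0 j), h2, zero_add]
    have h5 : ∀ T : Finset (Fin q), P.ord (∏ b ∈ T, quo C t x b₀ b ^ m j b) = 0 := by
      intro T
      induction T using Finset.induction_on with
      | empty => rw [Finset.prod_empty, P.ord_one]
      | insert a T ha ih =>
        rw [Finset.prod_insert ha, P.ord_mul (zpow_ne_zero _ (hq0 a))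
          (Finset.prod_ne_zero_iff.2 fun b _ => zpow_ne_zero _ (hq0 b)), ih, P.ord_zpow, h4,
          mul_zero, zero_add]
    exact h5 Finset.univ
  obtain ⟨i, j, hij, hle⟩ := exists_pair (k := k) S
    (fun j => c j * ∏ b, quo C t x b₀ b ^ m j b) (fun j => mul_ne_zero (hc j) (hp0 j)) hrel
    (fun P hP i j => by rw [hord P hP i, hord P hP j])
  refine ⟨i, j, hij, ?_⟩
  have e1 : (∏ b, quo C t x b₀ b ^ m i b) / ∏ b, quo C t x b₀ b ^ m j b =
      ((c i * ∏ b, quo C t x b₀ b ^ m i b) / (c j * ∏ b, quo C t x b₀ b ^ m j b)) *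
        (c j / c i) := by
    have h1 := hc i
    have h2 := hc j
    have h3 := hp0 j
    field_simp
  rw [e1]
  refine (hgt_mul' _ _).trans ?_
  have h1 : hgt k (c j / c i) ≤ 2 * ∑ j, hgt k (c j) := by
    rw [div_eq_mul_inv]
    refine (hgt_mul' _ _).trans ?_
    rw [hgt_inv]
    have h2 := Finset.single_le_sum (f := fun j => hgt k (c j)) (fun _ _ => hgt_nonneg _)
      (Finset.mem_univ j)
    have h3 := Finset.single_le_sum (f := fun j => hgt k (c j)) (fun _ _ => hgt_nonneg _)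
      (Finset.mem_univ i)
    omega
  have h2 : kb (Fintype.card J) * max (canDeg k L + S.card) 0 ≤
      kb (Fintype.card J) * (max (canDeg k L + (meets k C t x).ncard) 0 +
        2 * ∑ s, hgt k (t s) + 2 * ∑ j, hgt k (c j)) := by
    refine mul_le_mul_of_nonneg_left ?_ (kb_nonneg _)
    have h3 : 0 ≤ ∑ s, hgt k (t s) := Finset.sum_nonneg fun _ _ => hgt_nonneg _
    have h4 : 0 ≤ ∑ j, hgt k (c j) := Finset.sum_nonneg fun _ _ => hgt_nonneg _
    omega
  exact add_le_add (hle.trans h2) h1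

end

end Pool.Agent.Run7.h789.FV
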