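import Pool.Agent.Run7.h789.FV.AffOne
import Pool.Agent.NH29.GN.Prj
import Pool.Agent.NH29.GN.Hi3

/-!
# The height inequality over function fields, projectively invariant form
-/

set_option autoImplicit false

open FF Pool.Agent.W603.LV Pool.Agent.W603.PV MvPolynomial Filter

namespace Pool.Agent.Run7.h789.FV

open Pool.Agent.NH29.GN (Idx Mon fv val quo NoZero Num2)
open Pool.Agent.NH29.GN.Hi (Pt2 mon0 fv_scale)

section

variable {k L : Type} [Field k] [Field L] [Algebra k L]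

/-- the height of a point of a projective space -/
noncomputable def mht (k : Type) {L : Type} [Field k] [Field L] [Algebra k L] {ι : Type}
    (x : ι → L) : ℤ := - ∑ᶠ P : Place k L, mord P x

theorem mht_eq {n : ℕ} (x : Fin (n + 1) → L) : mht k x = pht k x := rfl

theorem mord_scale {ι : Type} [Finite ι] (P : Place k L) {x : ι → L} (hx : ∃ j, x j ≠ 0) {c : L}
    (hc : c ≠ 0) : mord P (fun j => c * x j) = P.ord c + mord P x := by
  obtain ⟨j, hj, h1⟩ := exists_mord P hx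
  have hx' : ∃ j, (fun j => c * x j) j ≠ 0 := ⟨j, mul_ne_zero hc hj⟩
  obtain ⟨i, hi, h2⟩ := exists_mord P hx'
  have hi' : x i ≠ 0 := right_ne_zero_of_mul hi
  have h3 := mord_le P (x := fun j => c * x j) (j := j) (mul_ne_zero hc hj)
  have h4 := mord_le P (x := x) hi'
  rw [P.ord_mul hc hj] at h3
  rw [P.ord_mul hc hi'] at h2
  omega

theorem meets_scale {M q : ℕ} {d : Fin q → ℕ} (C : Finset (Fin q)) (t : Idx M d → L)
    (x : Fin (M + 1) → L) (e : Fin q → L) (he : ∀ b, e b ≠ 0)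
    (hoff : ∀ b, b ∉ C → fv t x b ≠ 0) :
    meets k C (fun s : Idx M d => e s.1 * t s) x = meets k C t x := by
  ext P
  refine exists_congr fun b => and_congr_right fun hb => ?_
  rw [fv_scale t e x b, P.ord_mul (he b) (hoff b hb)]
  have h1 := mord_scale P (t_ne (hoff b hb)) (he b)
  rw [show mord P (fun β => e b * t ⟨b, β⟩) = P.ord (e b) + mord P (fun β => t ⟨b, β⟩) from h1]
  constructor <;> intro h <;> omega

variable [CharZero k] [IsFF k L]

theorem finite_mord {ι : Type} [Fintype ι] {x : ι → L} (hx : ∃ j, x j ≠ 0) :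
    ∃ T : Finset (Place k L), (∀ j P, P.ord (x j) ≠ 0 → P ∈ T) ∧
      ∀ P, mord P x ≠ 0 → P ∈ T := by
  classical
  obtain ⟨T, hT⟩ := exists_supp (k := k) Finset.univ x
  refine ⟨T, fun j => hT j (Finset.mem_univ j), fun P hP => ?_⟩
  by_contra hcon
  apply hP
  refine mord_eq_zero P hx fun j _ => ?_
  by_contra h
  exact hcon (hT j (Finset.mem_univ j) P h)

theorem mht_finset {ι : Type} {x : ι → L} (T : Finset (Place k L))
    (hT : ∀ P, mord P x ≠ 0 → P ∈ T) : mht k x = ∑ P ∈ T, - mord P x := by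
  unfold mht
  rw [finsum_eq_sum_of_support_subset (s := T), Finset.sum_neg_distrib]
  intro P hP
  exact hT P hP

variable [IsAlgClosed k]

theorem hgt_le_mht {ι : Type} [Fintype ι] (x : ι → L) {a₀ : ι} (ha₀ : x a₀ ≠ 0) (a : ι) :
    hgt k (x a / x a₀) ≤ mht k x := by
  classical
  obtain ⟨T, hT1, hT2⟩ := finite_mord (k := k) ⟨a₀, ha₀⟩
  have hT3 : ∀ P : Place k L, P.ord (x a / x a₀) ≠ 0 → P ∈ T := by
    intro P hP
    by_contra hcon
    apply hP
    by_cases ha : x a = 0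
    · rw [ha, zero_div, P.ord_zero]
    · have h1 : P.ord (x a) = 0 := by
        by_contra h
        exact hcon (hT1 a P h)
      have h2 : P.ord (x a₀) = 0 := by
        by_contra h
        exact hcon (hT1 a₀ P h)
      rw [P.ord_div ha ha₀, h1, h2, sub_zero]
  have h0 := sum_ord_finset (k := k) (x a₀) T (hT1 a₀)
  rw [hgt_finset _ T hT3, mht_finset T hT2, ← add_zero (∑ P ∈ T, - mord P x), ← h0,
    ← Finset.sum_add_distrib]
  refine Finset.sum_le_sum fun P _ => ?_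
  have h1 := mord_le P (x := x) ha₀
  refine max_le ?_ (by omega)
  by_cases ha : x a = 0
  · rw [ha, zero_div, P.ord_zero]
    omega
  · have h2 := mord_le P (x := x) ha
    rw [P.ord_div ha ha₀]
    omega

theorem mht_nonneg {ι : Type} [Fintype ι] {x : ι → L} (hx : ∃ j, x j ≠ 0) : 0 ≤ mht k x := by
  obtain ⟨j, hj⟩ := hx
  exact (hgt_nonneg (k := k) (x j / x j)).trans (hgt_le_mht x hj j)

theorem hgt_natCast_mul (l : ℕ) (g : L) : hgt k ((l : L) * g) ≤ hgt k g := by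
  have h1 := hgt_mul' (k := k) (l : L) g
  have h2 : hgt k (l : L) = 0 := by
    have := hgt_const (k := k) (K := L) (l : k)
    rwa [map_natCast] at this
  omega

/-- the right hand side, with the heights of the coefficient vectors -/
noncomputable def rhsP (k : Type) {L : Type} [Field k] [Field L] [Algebra k L] {M q : ℕ}
    {d : Fin q → ℕ} (w : ℕ) (C : Finset (Fin q)) (t : Idx M d → L) (x : Fin (M + 1) → L) : ℤ :=
  max (canDeg k L + (meets k C t x).ncard) 0 + w + ∑ b, mht k (fun β : Mon M (d b) => t ⟨b, β⟩)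

end

/-- the inequality, projectively invariant -/
theorem pj_one {k₀ : Type} [Field k₀] [CharZero k₀] (c₀ : k₀ → ℕ) {M n q : ℕ}
    {V : Set (MvPolynomial (Fin (M + 1)) k₀)} (hV : ∀ H ∈ V, ∃ e, H.IsHomogeneous e)
    {ℓ : Fin (n + 1) → MvPolynomial (Fin (M + 1)) k₀} (hℓ : ∀ j, (ℓ j).IsHomogeneous 1)
    (hN : NoZero V ℓ) (hq : n + 1 ≤ q) {d : Fin q → ℕ} (hd : ∀ i, 1 ≤ d i)
    (C : Finset (Fin q)) (hNum : Num2 n d C) :
    ∃ Φ : MvPolynomial (Idx M d) k₀, Φ ≠ 0 ∧ ∃ A : ℕ,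
      ∀ (k L : Type) [Field k] [Field L] [IsAlgClosed k] [CharZero k] [Algebra k L]
        [Algebra k₀ L] [IsFF k L] (w : ℕ), (∀ a : k₀, hgt k (algebraMap k₀ L a) ≤ c₀ a * w) →
      ∀ t : Idx M d → L, aeval t Φ ≠ 0 → (∀ s, t s ≠ 0) ∧
        ∀ x : Fin (M + 1) → L, Pt2 V C t x → pht k x ≤ A * rhsP k w C t x := by
  classical
  obtain ⟨Φ₀, h0, A, hA⟩ := aff_one c₀ hV hℓ hN hq hd C hNum
  obtain ⟨Φ, D, h2, h3⟩ := Pool.Agent.NH29.GN.prj k₀ M q d Φ₀ h0
  set N : ℕ := Fintype.card (Idx M d) with hNdef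
  refine ⟨Φ, h2, A * (1 + N), fun k L _ _ _ _ _ _ _ w hw t ht => ?_⟩
  obtain ⟨ht0, ht1⟩ := h3 L t ht
  refine ⟨ht0, fun x hx => ?_⟩
  obtain ⟨l, hl, hl0⟩ := ht1 (fun b => (t ⟨b, mon0 M (d b)⟩)⁻¹) fun b => inv_ne_zero (ht0 _)
  obtain ⟨e, he⟩ : ∃ e : Fin q → L, e = fun b => (l b : L) * (t ⟨b, mon0 M (d b)⟩)⁻¹ := ⟨_, rfl⟩
  have hCL : CharZero L := charZero_of_injective_algebraMap (algebraMap k L).injective
  have hlne : ∀ b, (l b : L) ≠ 0 := fun b => by
    have := (hl b).1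
    exact_mod_cast (by omega : l b ≠ 0)
  have he0 : ∀ b, e b ≠ 0 := fun b => by
    rw [he]
    exact mul_ne_zero (hlne b) (inv_ne_zero (ht0 _))
  obtain ⟨t', ht'⟩ : ∃ t' : Idx M d → L, t' = fun s => e s.1 * t s := ⟨_, rfl⟩
  have hΦ0 : aeval t' Φ₀ ≠ 0 := by
    rw [ht', he]
    exact hl0
  have hfv : ∀ b, fv (K := L) (L := L) t' x b = e b * fv t x b := fun b => by
    rw [ht']
    exact fv_scale t e x b
  have hx' : Pt2 V C t' x := by
    refine ⟨hx.ne, hx.onV, fun b hb => ?_, fun b hb => ?_⟩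
    · rw [hfv, hx.onC b hb, mul_zero]
    · rw [hfv]
      exact mul_ne_zero (he0 b) (hx.off b hb)
  have hm : meets k C t' x = meets k C t x := by
    rw [ht']
    exact meets_scale C t x e he0 hx.off
  have hmain : pht k x ≤ A * rhs k w C t' x := by
    by_contra hcon
    push Not at hcon
    exact hA.false ⟨k, L, w, hw, t', hΦ0, x, hx', hcon⟩
  have hY : ∀ b, 0 ≤ mht k (fun β : Mon M (d b) => t ⟨b, β⟩) := fun b =>
    mht_nonneg ⟨mon0 M (d b), ht0 _⟩
  have hh : ∀ s, hgt k (t' s) ≤ ∑ b, mht k (fun β : Mon M (d b) => t ⟨b, β⟩) := by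
    rintro ⟨b, β⟩
    have h4 := hgt_le_mht (k := k) (fun β : Mon M (d b) => t ⟨b, β⟩) (ht0 ⟨b, mon0 M (d b)⟩) β
    have h5 := Finset.single_le_sum
      (f := fun b => mht k (fun β : Mon M (d b) => t ⟨b, β⟩)) (fun b _ => hY b)
      (Finset.mem_univ b)
    have h6 : t' ⟨b, β⟩ = (l b : L) * (t ⟨b, β⟩ / t ⟨b, mon0 M (d b)⟩) := by
      rw [ht', he]
      simp only
      rw [div_eq_mul_inv]
      ring
    rw [h6]
    have h7 := hgt_natCast_mul (k := k) (l b) (t ⟨b, β⟩ / t ⟨b, mon0 M (d b)⟩)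
    have h8 : mht k (fun β : Mon M (d b) => t ⟨b, β⟩) ≤
      ∑ b, mht k (fun β : Mon M (d b) => t ⟨b, β⟩) := h5
    exact h7.trans (h4.trans h8)
  have hr : rhs k w C t' x ≤ (1 + N : ℕ) * rhsP k w C t x := by
    unfold rhs rhsP
    rw [hm]
    have h7 : ∑ s, hgt k (t' s) ≤ N * ∑ b, mht k (fun β : Mon M (d b) => t ⟨b, β⟩) := by
      refine (Finset.sum_le_sum fun s _ => hh s).trans (le_of_eq ?_)
      rw [Finset.sum_const, Finset.card_univ, nsmul_eq_mul]
    have h8 : 0 ≤ ∑ b, mht k (fun β : Mon M (d b) => t ⟨b, β⟩) := Finset.sum_nonneg fun b _ => hY b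
    have h9 : 0 ≤ max (canDeg k L + (meets k C t x).ncard) 0 := le_max_right _ _
    have h10 : (0 : ℤ) ≤ w := Int.natCast_nonneg _
    have h11 : (0 : ℤ) ≤ N := Int.natCast_nonneg _
    push_cast
    nlinarith [mul_nonneg h11 h9, mul_nonneg h11 h10]
  calc pht k x ≤ A * rhs k w C t' x := hmain
    _ ≤ A * ((1 + N : ℕ) * rhsP k w C t x) :=
      mul_le_mul_of_nonneg_left hr (Int.natCast_nonneg _)
    _ = _ := by push_cast; ring

end Pool.Agent.Run7.h789.FV
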